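import Pool.Agent.Run7.h718.NE.Plu
import Pool.Agent.W602.GT.SpecDefs

/-!
Powers of differential forms as covariant tensors.
-/

set_option autoImplicit false
set_option linter.overlappingInstances false
set_option linter.unusedSectionVars false
set_option maxHeartbeats 1000000
set_option synthInstance.maxHeartbeats 400000

open FF Pool.Agent.W602.GT
open Pool.Agent.Run7.h718.NE (RegTensor upd_eq)

namespace Pool.Agent.Run7.h718.SA

section

variable {K : Type} [Field K] [Algebra ℂ K] {w p : ℕ}

/-- the tensor `g η ^ N` -/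
noncomputable def powM (η : MultilinearMap K (fun _ : Fin p => Derivation ℂ K K) K) (N : ℕ) (g : K) :
    MultilinearMap K (fun _ : Fin N × Fin p => Derivation ℂ K K) K where
  toFun D := g * ∏ a, η fun i => D (a, i)
  map_update_add' := by
    intro _ D q u v
    have h1 : ∀ t : Derivation ℂ K K, (∏ a, η fun i => Function.update D q t (a, i)) =
        η (Function.update (fun i => D (q.1, i)) q.2 t) *
          ∏ a ∈ Finset.univ.erase q.1, η fun i => D (a, i) := by
      intro t
      rw [← Finset.mul_prod_erase Finset.univ _ (Finset.mem_univ q.1)]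
      congr 1
      · rw [upd_eq, if_pos rfl]
      · refine Finset.prod_congr rfl fun a ha => ?_
        rw [upd_eq, if_neg (Finset.ne_of_mem_erase ha)]
    rw [h1, h1, h1, η.map_update_add]
    ring
  map_update_smul' := by
    intro _ D q c v
    have h1 : ∀ t : Derivation ℂ K K, (∏ a, η fun i => Function.update D q t (a, i)) =
        η (Function.update (fun i => D (q.1, i)) q.2 t) *
          ∏ a ∈ Finset.univ.erase q.1, η fun i => D (a, i) := by
      intro t
      rw [← Finset.mul_prod_erase Finset.univ _ (Finset.mem_univ q.1)]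
      congr 1
      · rw [upd_eq, if_pos rfl]
      · refine Finset.prod_congr rfl fun a ha => ?_
        rw [upd_eq, if_neg (Finset.ne_of_mem_erase ha)]
    rw [h1, h1, η.map_update_smul, smul_eq_mul, smul_eq_mul]
    ring

/-- the tensor `g η ^ N` of rank `N p` -/
noncomputable def powF (η : MultilinearMap K (fun _ : Fin p => Derivation ℂ K K) K) (N : ℕ) (g : K) :
    MultilinearMap K (fun _ : Fin (N * p) => Derivation ℂ K K) K :=
  (powM η N g).domDomCongr finProdFinEquiv

theorem powF_apply (η : MultilinearMap K (fun _ : Fin p => Derivation ℂ K K) K) (N : ℕ) (g : K)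
    (D : Fin (N * p) → Derivation ℂ K K) :
    powF η N g D = g * ∏ a, η fun i => D (finProdFinEquiv (a, i)) := rfl

theorem powF_smul (η : MultilinearMap K (fun _ : Fin p => Derivation ℂ K K) K) (N : ℕ) (g r : K) :
    r • powF η N g = powF η N (r * g) := by
  ext D
  rw [MultilinearMap.smul_apply, powF_apply, powF_apply, smul_eq_mul, mul_assoc]

theorem powF_ne {η : MultilinearMap K (fun _ : Fin p => Derivation ℂ K K) K} (hη : η ≠ 0) (N : ℕ)
    {g : K} (hg : g ≠ 0) : powF η N g ≠ 0 := by
  intro h0
  obtain ⟨D, hD⟩ : ∃ D, η D ≠ 0 := by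
    by_contra hno
    push Not at hno
    exact hη (MultilinearMap.ext hno)
  have h1 := congrArg (fun T : MultilinearMap K (fun _ : Fin (N * p) => Derivation ℂ K K) K =>
    T fun i => D (finProdFinEquiv.symm i).2) h0
  change powF η N g (fun i => D (finProdFinEquiv.symm i).2) = 0 at h1
  rw [powF_apply] at h1
  have h2 : ∀ a : Fin N, (η fun i => D (finProdFinEquiv.symm (finProdFinEquiv (a, i))).2) = η D := by
    intro a
    congr 1
    funext i
    rw [Equiv.symm_apply_apply]
  simp only [h2] at h1
  exact mul_ne_zero hg (Finset.prod_ne_zero_iff.2 fun _ _ => hD) h1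

theorem ord_prod (P : Place ℂ K) {ι : Type} (s : Finset ι) (g : ι → K) (h : ∀ a ∈ s, g a ≠ 0) :
    P.ord (∏ a ∈ s, g a) = ∑ a ∈ s, P.ord (g a) := by
  classical
  induction s using Finset.induction_on with
  | empty =>
    rw [Finset.prod_empty, Finset.sum_empty]
    have := P.ord_pow (1 : K) 0
    simpa using this
  | insert a s ha ih =>
    rw [Finset.prod_insert ha, Finset.sum_insert ha, P.ord_mul (h a (Finset.mem_insert_self a s))
      (Finset.prod_ne_zero_iff.2 fun b hb => h b (Finset.mem_insert_of_mem hb)),
      ih fun b hb => h b (Finset.mem_insert_of_mem hb)]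

/-- **Regular powers of forms are regular tensors.** -/
theorem powF_reg {η : MultilinearMap K (fun _ : Fin p => Derivation ℂ K K) K} {N : ℕ} (hN : 0 < N)
    {g : K} (h : ∀ P : Place ℂ K, Divisorial w P → ∀ D : Fin p → Derivation ℂ K K,
      (∀ i, DerReg P (D i)) → P.Reg (g * η D ^ N)) : RegTensor w (powF η N g) := by
  intro P hP D hD
  rw [powF_apply]
  by_cases h0 : g * ∏ a, η (fun i => D (finProdFinEquiv (a, i))) = 0
  · exact Or.inl h0
  right
  have hg : g ≠ 0 := left_ne_zero_of_mul h0
  have hne := Finset.prod_ne_zero_iff.1 (right_ne_zero_of_mul h0)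
  rw [P.ord_mul hg (right_ne_zero_of_mul h0), ord_prod P _ _ hne]
  have h1 : ∀ a : Fin N, 0 ≤ P.ord g + N * P.ord (η fun i => D (finProdFinEquiv (a, i))) := by
    intro a
    have h2 := h P hP (fun i => D (finProdFinEquiv (a, i))) fun i => hD _
    have h3 : η (fun i => D (finProdFinEquiv (a, i))) ≠ 0 := hne a (Finset.mem_univ a)
    have h4 := h2.resolve_left (mul_ne_zero hg (pow_ne_zero _ h3))
    rw [P.ord_mul hg (pow_ne_zero _ h3), P.ord_pow] at h4
    exact h4
  have h2 : 0 ≤ ∑ a : Fin N, (P.ord g + N * P.ord (η fun i => D (finProdFinEquiv (a, i)))) :=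
    Finset.sum_nonneg fun a _ => h1 a
  rw [Finset.sum_add_distrib, Finset.sum_const, Finset.card_univ, Fintype.card_fin, nsmul_eq_mul,
    ← Finset.mul_sum, ← mul_add] at h2
  exact nonneg_of_mul_nonneg_right h2 (by exact_mod_cast hN)

end

end Pool.Agent.Run7.h718.SA
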